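import Mathlib
import Pool.Agent.TH54.BU.Iter

/-!
# Free groups of exponent `p`: functoriality, retractions, abelian subgroups (helper206)

`B p I` is the free group of exponent `p` on the set `I`.  For large primes `p` every abelian
subgroup of `B p I` is cyclic of order dividing `p` (from the seed theorem
`Pool.Agent.TH54.BU.burnside`, the large exponent Burnside theorem with central extensions).
-/

set_option autoImplicit false

namespace Pool.Agent.Q206.BG

open Pool.Agent.TH54.BU

/-- the free group of exponent `p` on the set `I` -/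
abbrev B (p : ℕ) (I : Type) : Type := FreeGroup I ⧸ powSub (FreeGroup I) p

variable {p : ℕ} {I J K : Type}

theorem pow_eq_one (x : B p I) : x ^ p = 1 := by
  obtain ⟨g, rfl⟩ := QuotientGroup.mk_surjective x
  rw [← QuotientGroup.mk_pow, QuotientGroup.eq_one_iff]
  exact Subgroup.subset_normalClosure ⟨g, rfl⟩

/-- the free generators -/
def gen (i : I) : B p I := ((FreeGroup.of i : FreeGroup I) : B p I)

/-- the universal property -/
def lift {G : Type*} [Group G] (hG : ∀ g : G, g ^ p = 1) (f : I → G) : B p I →* G :=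
  QuotientGroup.lift _ (FreeGroup.lift f) (by
    intro x hx
    have : powSub (FreeGroup I) p ≤ (FreeGroup.lift f).ker := by
      apply Subgroup.normalClosure_le_normal
      rintro _ ⟨g, rfl⟩
      rw [SetLike.mem_coe, MonoidHom.mem_ker, map_pow, hG]
    exact this hx)

@[simp] theorem lift_gen {G : Type*} [Group G] (hG : ∀ g : G, g ^ p = 1) (f : I → G) (i : I) :
    lift hG f (gen i) = f i := by
  show QuotientGroup.lift _ _ _ ((FreeGroup.of i : FreeGroup I) : B p I) = _
  rw [QuotientGroup.lift_mk]
  exact FreeGroup.lift_apply_of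

theorem lift_mk {G : Type*} [Group G] (hG : ∀ g : G, g ^ p = 1) (f : I → G) (w : FreeGroup I) :
    lift hG f (w : B p I) = FreeGroup.lift f w := rfl

theorem hom_ext {G : Type*} [Group G] {f g : B p I →* G} (h : ∀ i, f (gen i) = g (gen i)) :
    f = g := by
  apply QuotientGroup.monoidHom_ext
  apply FreeGroup.ext_hom
  exact h

/-- functoriality -/
def bmap (f : I → J) : B p I →* B p J := lift pow_eq_one (fun i => gen (f i))

@[simp] theorem bmap_gen (f : I → J) (i : I) : bmap f (gen i : B p I) = gen (f i) :=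
  lift_gen _ _ _

theorem bmap_bmap (f : I → J) (g : J → K) (x : B p I) : bmap g (bmap f x) = bmap (g ∘ f) x := by
  have : (bmap g).comp (bmap f) = (bmap (g ∘ f) : B p I →* B p K) := hom_ext (by intro i; simp)
  exact DFunLike.congr_fun this x

theorem bmap_id (x : B p I) : bmap id x = x := by
  have : (bmap id : B p I →* B p I) = MonoidHom.id _ := hom_ext (by intro i; simp)
  exact DFunLike.congr_fun this x

open Classical in
/-- the retraction onto the subgroup generated by the generators in `S` -/
noncomputable def ret (S : Set I) : B p I →* B p I :=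
  lift pow_eq_one (fun i => if i ∈ S then gen i else 1)

theorem ret_gen (S : Set I) (i : I) [Decidable (i ∈ S)] :
    ret S (gen i : B p I) = if i ∈ S then gen i else 1 := by
  rw [ret, lift_gen]
  congr

theorem ret_gen_mem {S : Set I} {i : I} (h : i ∈ S) : ret S (gen i : B p I) = gen i := by
  classical
  rw [ret_gen, if_pos h]

theorem ret_gen_notMem {S : Set I} {i : I} (h : i ∉ S) : ret S (gen i : B p I) = 1 := by
  classical
  rw [ret_gen, if_neg h]

theorem ret_ret (S T : Set I) (x : B p I) : ret S (ret T x) = ret (S ∩ T) x := by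
  classical
  have : (ret S).comp (ret T) = (ret (S ∩ T) : B p I →* B p I) := by
    apply hom_ext
    intro i
    rw [MonoidHom.comp_apply]
    by_cases hT : i ∈ T
    · rw [ret_gen_mem hT]
      by_cases hS : i ∈ S
      · rw [ret_gen_mem hS, ret_gen_mem (S := S ∩ T) ⟨hS, hT⟩]
      · rw [ret_gen_notMem hS, ret_gen_notMem (S := S ∩ T) (fun h => hS h.1)]
    · rw [ret_gen_notMem hT, map_one, ret_gen_notMem (S := S ∩ T) (fun h => hT h.2)]
  exact DFunLike.congr_fun this x

theorem ret_bmap {S : Set J} (f : I → J) (h : ∀ i, f i ∈ S) (x : B p I) :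
    ret S (bmap f x) = bmap f x := by
  have : (ret S).comp (bmap f) = (bmap f : B p I →* B p J) := by
    apply hom_ext
    intro i
    rw [MonoidHom.comp_apply, bmap_gen, ret_gen_mem (h i)]
  exact DFunLike.congr_fun this x

/-- the subgroup generated by the generators in `S`: fixed points of the retraction -/
theorem exists_bmap_val {S : Set I} (x : B p I) : ∃ y : B p S, bmap Subtype.val y = ret S x := by
  classical
  let f : B p I →* B p S :=
    lift pow_eq_one (fun i => if h : i ∈ S then gen (⟨i, h⟩ : S) else 1)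
  refine ⟨f x, ?_⟩
  have : (bmap Subtype.val).comp f = (ret S : B p I →* B p I) := by
    apply hom_ext
    intro i
    rw [MonoidHom.comp_apply]
    simp only [f, lift_gen]
    by_cases h : i ∈ S
    · rw [dif_pos h, bmap_gen, ret_gen_mem h]
    · rw [dif_neg h, map_one, ret_gen_notMem h]
  exact DFunLike.congr_fun this x

/-- every element is supported on a finite set -/
theorem exists_finset (x : B p I) : ∃ S : Finset I, ret (S : Set I) x = x := by
  classical
  obtain ⟨g, rfl⟩ := QuotientGroup.mk_surjective x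
  induction g using FreeGroup.induction_on with
  | C1 => exact ⟨∅, map_one _⟩
  | of i => exact ⟨{i}, ret_gen_mem (by simp)⟩
  | inv_of i h =>
    refine ⟨{i}, ?_⟩
    rw [QuotientGroup.mk_inv, map_inv]
    congr 1
    exact ret_gen_mem (by simp)
  | mul a b ha hb =>
    obtain ⟨S, hS⟩ := ha
    obtain ⟨T, hT⟩ := hb
    refine ⟨S ∪ T, ?_⟩
    rw [QuotientGroup.mk_mul, map_mul, ← hS, ← hT, ret_ret, ret_ret]
    congr 2
    · congr 1
      push_cast
      ext x; simp
      tauto
    · congr 1
      push_cast
      ext x; simp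
      tauto

theorem gen_ne_one (hp : 1 < p) (i : I) : (gen i : B p I) ≠ 1 := by
  intro h
  have hG : ∀ g : Multiplicative (ZMod p), g ^ p = 1 := by
    intro g
    apply Multiplicative.toAdd.injective
    rw [toAdd_pow, toAdd_one, nsmul_eq_mul, CharP.cast_eq_zero, zero_mul]
  have h1 : lift hG (fun _ : I => Multiplicative.ofAdd (1 : ZMod p)) (gen i) =
    lift hG (fun _ : I => Multiplicative.ofAdd (1 : ZMod p)) 1 := congrArg _ h
  rw [lift_gen, MonoidHom.map_one] at h1
  have h2 : (1 : ZMod p) = 0 := congrArg Multiplicative.toAdd h1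
  have : Fact (1 < p) := ⟨hp⟩
  exact one_ne_zero h2

theorem bmap_injective {f : I → J} (hf : Function.Injective f) :
    Function.Injective (bmap f : B p I →* B p J) := by
  classical
  let g : B p J →* B p I :=
    lift pow_eq_one (fun j => if h : ∃ i, f i = j then gen h.choose else 1)
  have : g.comp (bmap f) = MonoidHom.id (B p I) := by
    apply hom_ext
    intro i
    rw [MonoidHom.comp_apply, bmap_gen]
    simp only [g, lift_gen]
    have h : ∃ i', f i' = f i := ⟨i, rfl⟩
    rw [dif_pos h, hf h.choose_spec]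
    rfl
  intro x y hxy
  have h1 := congrArg g hxy
  have h2 : ∀ z, g (bmap f z) = z := fun z => DFunLike.congr_fun this z
  rwa [h2, h2] at h1

/-- a generator in the image of an injective map comes from a generator -/
theorem gen_of_bmap (hp : 1 < p) {f : I → J} (hf : Function.Injective f) {x : B p I} {j : J}
    (h : bmap f x = gen j) : ∃ i, x = gen i ∧ f i = j := by
  classical
  by_cases hj : ∃ i, f i = j
  · obtain ⟨i, rfl⟩ := hj
    refine ⟨i, ?_, rfl⟩
    apply bmap_injective hf
    rw [h, bmap_gen]
  · exfalso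
    have h1 := congrArg (ret {j' | j' ≠ j}) h
    have h2 : ∀ i, f i ∈ {j' | j' ≠ j} := fun i => fun hi => hj ⟨i, hi⟩
    rw [ret_bmap f h2, h, ret_gen_notMem (by simp)] at h1
    exact gen_ne_one hp j h1

theorem gen_injective (hp : 1 < p) : Function.Injective (gen : I → B p I) := by
  intro i j hij
  by_contra hne
  have h1 := congrArg (ret {i}) hij
  rw [ret_gen_mem (by simp), ret_gen_notMem (by simpa using fun h => hne h.symm)] at h1
  exact gen_ne_one hp i h1

/-- In the free group of exponent `p`, `p` a large prime, the centralizer of a nontrivial element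
is the cyclic group it generates. -/
theorem mem_zpowers_of_commute (hp : p.Prime) (h : Burn p) {x y : B p I} (hx : x ≠ 1)
    (hxy : x * y = y * x) : y ∈ Subgroup.zpowers x := by
  obtain ⟨A, _, z, φ, hφ, hker, hz, hzinf, hpow, -⟩ := h I
  have hzi : ∀ k : ℤ, z ^ k = 1 → k = 0 := by
    intro k hk
    by_contra h0
    exact hzinf (isOfFinOrder_iff_zpow_eq_one.2 ⟨k, h0, hk⟩)
  have hzc : ∀ (a : A) (k : ℤ), a * z ^ k = z ^ k * a := fun a k =>
    ((show Commute a z from hz a).zpow_right k).eq
  obtain ⟨a, rfl⟩ := hφ x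
  obtain ⟨b, rfl⟩ := hφ y
  have hmem : ∀ c : A, φ c = 1 ↔ c ∈ Subgroup.zpowers z := by
    intro c
    rw [← hker, MonoidHom.mem_ker]
  have ha : a ∉ Subgroup.zpowers z := fun h' => hx ((hmem a).2 h')
  obtain ⟨k, hk, hpk⟩ := hpow a ha
  -- `a` and `b` commute
  obtain ⟨c, hc⟩ : ∃ c : ℤ, a * b = b * a * z ^ c := by
    have h1 : φ ((b * a)⁻¹ * (a * b)) = 1 := by
      rw [map_mul, map_inv, map_mul, map_mul, hxy, inv_mul_cancel]
    obtain ⟨c, hc⟩ := (hmem _).1 h1
    have hc' : z ^ c = (b * a)⁻¹ * (a * b) := hc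
    exact ⟨c, by rw [hc', mul_inv_cancel_left]⟩
  have hpowc : ∀ n : ℕ, a ^ n * b = b * a ^ n * z ^ (c * n) := by
    intro n
    induction n with
    | zero => simp
    | succ n ih =>
      calc a ^ (n + 1) * b = a ^ n * (a * b) := by rw [pow_succ, mul_assoc]
        _ = a ^ n * (b * a * z ^ c) := by rw [hc]
        _ = (a ^ n * b) * (a * z ^ c) := by simp only [mul_assoc]
        _ = b * a ^ n * z ^ (c * n) * (a * z ^ c) := by rw [ih]
        _ = b * a ^ n * (z ^ (c * n) * a) * z ^ c := by simp only [mul_assoc]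
        _ = b * a ^ n * (a * z ^ (c * n)) * z ^ c := by rw [hzc a]
        _ = b * (a ^ n * a) * (z ^ (c * n) * z ^ c) := by simp only [mul_assoc]
        _ = b * a ^ (n + 1) * z ^ (c * ((n + 1 : ℕ) : ℤ)) := by
          rw [← pow_succ, ← zpow_add]
          congr 2
          push_cast
          ring
  have hc0 : c = 0 := by
    have h1 := hpowc p
    rw [hk, ← hzc b k] at h1
    have h2 : (1 : A) = z ^ (c * p) := by
      have : b * z ^ k * 1 = b * z ^ k * z ^ (c * p) := by rw [mul_one]; exact h1
      exact mul_left_cancel this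
    have h3 := hzi _ h2.symm
    rcases mul_eq_zero.1 h3 with h4 | h4
    · exact h4
    · exact absurd h4 (by exact_mod_cast hp.ne_zero)
  have hab : Commute a b := by
    show a * b = b * a
    rw [hc, hc0, zpow_zero, mul_one]
  by_cases hb : b ∈ Subgroup.zpowers z
  · rw [(hmem b).2 hb]
    exact Subgroup.one_mem _
  obtain ⟨l, hl, hpl⟩ := hpow b hb
  -- `l = m k + p t`
  obtain ⟨m, t, hmt⟩ : ∃ m t : ℤ, l = m * k + p * t := by
    have hcop : IsCoprime k (p : ℤ) := by
      have := (Int.prime_iff_natAbs_prime.2 (by simpa using hp) : Prime (p : ℤ))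
      exact ((Prime.coprime_iff_not_dvd this).2 hpk).symm
    obtain ⟨u, v, huv⟩ := hcop
    exact ⟨l * u, l * v, by linear_combination (-l) * huv⟩
  have hck : (a ^ (-m) * b * z ^ (-t)) ^ p = 1 := by
    have e1 : Commute (a ^ (-m) * b) (z ^ (-t)) := hzc _ _
    have e2 : Commute (a ^ (-m)) b := hab.zpow_left _
    rw [e1.mul_pow, e2.mul_pow, hl, ← zpow_natCast, ← zpow_mul, mul_comm (-m) (p : ℤ), zpow_mul,
      zpow_natCast, hk, ← zpow_natCast, ← zpow_mul, ← zpow_mul, ← zpow_add, ← zpow_add, hmt]
    have : k * -m + (m * k + p * t) + -t * p = 0 := by ring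
    rw [this, zpow_zero]
  have hcz : a ^ (-m) * b * z ^ (-t) ∈ Subgroup.zpowers z := by
    by_contra hcon
    obtain ⟨j, hj, hpj⟩ := hpow _ hcon
    rw [hck] at hj
    have := hzi j hj.symm
    subst this
    exact hpj (dvd_zero _)
  have h5 := (hmem _).2 hcz
  have hφz : φ (z ^ (-t)) = 1 := (hmem _).2 ⟨-t, rfl⟩
  rw [map_mul, map_mul, hφz, mul_one, map_zpow, zpow_neg] at h5
  refine ⟨m, ?_⟩
  show φ a ^ m = φ b
  exact inv_mul_eq_one.1 h5

/-- In the free group of exponent `p`, `p` a large prime, all abelian subgroups are finite. -/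
theorem finite_of_commute (hp : p.Prime) (h : Burn p) (H : Subgroup (B p I))
    (hH : ∀ x ∈ H, ∀ y ∈ H, x * y = y * x) : Finite H := by
  by_cases hbot : ∃ x ∈ H, x ≠ 1
  · obtain ⟨x, hx, hx1⟩ := hbot
    have hle : H ≤ Subgroup.zpowers x := fun y hy =>
      mem_zpowers_of_commute hp h hx1 (hH x hx y hy)
    have hfin : Finite (Subgroup.zpowers x) :=
      (finite_zpowers.2 (isOfFinOrder_iff_pow_eq_one.2 ⟨p, hp.pos, pow_eq_one x⟩)).to_subtype
    exact Finite.of_injective (Subgroup.inclusion hle) (Subgroup.inclusion_injective hle)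
  · push Not at hbot
    have : Subsingleton H := ⟨fun a b => Subtype.ext ((hbot _ a.2).trans (hbot _ b.2).symm)⟩
    infer_instance

theorem infinite_B (hp : 1 < p) [Infinite I] : Infinite (B p I) :=
  Infinite.of_injective _ (gen_injective hp)

end Pool.Agent.Q206.BG
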