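import Mathlib
import Pool.Agent.TH54.BU.BurnDef

/-!
# Diagrams, good diagrams, categorical diagrams (homogeneous model theory), and the language of
groups with a unary predicate (helper206)
-/

set_option autoImplicit false

namespace Pool.Agent.Q206.BG

open FirstOrder Cardinal

section HMT

variable (L : FirstOrder.Language.{0, 0})

/-- the complete type over the empty set of a finite tuple of an `L`-structure -/
def tp {M : Type} [L.Structure M] {n : ℕ} (v : Fin n → M) : Set (L.Formula (Fin n)) :=
  {φ | φ.Realize v}

/-- the diagram of an `L`-structure: the complete types over the empty set of its finite tuples -/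
def diagram (M : Type) [L.Structure M] : Set (Σ n : ℕ, Set (L.Formula (Fin n))) :=
  {t | ∃ v : Fin t.1 → M, tp L v = t.2}

/-- `D`-models: structures in which the type of every finite tuple is in `D` -/
def IsDModel (D : Set (Σ n : ℕ, Set (L.Formula (Fin n)))) (N : Type) [L.Structure N] : Prop :=
  ∀ (n : ℕ) (v : Fin n → N), (⟨n, tp L v⟩ : Σ n : ℕ, Set (L.Formula (Fin n))) ∈ D

/-- `f : A → M`, `A` a subset of `M`, is an elementary map: it preserves the types of all finite
tuples from `A` -/
def IsElemMap {M : Type} [L.Structure M] (A : Set M) (f : A → M) : Prop :=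
  ∀ (n : ℕ) (v : Fin n → A), tp L (fun i => (v i : M)) = tp L (fun i => f (v i))

/-- `κ`-homogeneous structures -/
def Homogeneous (κ : Cardinal.{0}) (M : Type) [L.Structure M] : Prop :=
  ∀ (A : Set M) (f : A → M), IsElemMap L A f → #A < κ → ∀ a : M,
    ∃ (C : Set M) (g : C → M) (hAC : A ⊆ C), IsElemMap L C g ∧ a ∈ C ∧
      ∀ x : A, g (Set.inclusion hAC x) = f x

/-- good diagrams: there are arbitrarily large cardinals `μ` for which there is a
`(D, μ)`-homogeneous model (a `μ`-homogeneous structure with diagram `D`) of cardinality
at least `μ` -/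
def Good (D : Set (Σ n : ℕ, Set (L.Formula (Fin n)))) : Prop :=
  ∀ κ : Cardinal.{0}, ∃ μ : Cardinal.{0}, κ ≤ μ ∧ ∃ (N : Type) (_ : L.Structure N),
    Homogeneous L μ N ∧ diagram L N = D ∧ μ ≤ #N

/-- `D` is categorical in `κ`: any two `D`-models of cardinality `κ` are isomorphic -/
def Categorical (D : Set (Σ n : ℕ, Set (L.Formula (Fin n)))) (κ : Cardinal.{0}) : Prop :=
  ∀ (M N : Type) (_ : L.Structure M) (_ : L.Structure N), IsDModel L D M → IsDModel L D N →
    #M = κ → #N = κ → Nonempty (M ≃[L] N)

end HMT

/-- function symbols of the language of groups -/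
inductive GF : ℕ → Type
  | one : GF 0
  | inv : GF 1
  | mul : GF 2

/-- one unary relation symbol -/
inductive GR : ℕ → Type
  | basis : GR 1

/-- the language of groups with an additional unary predicate -/
def LG : FirstOrder.Language.{0, 0} := ⟨GF, GR⟩

/-- the group language symbols of an `LG`-structure are interpreted by the group operations -/
def IsGroupReduct (G : Type) [Group G] [LG.Structure G] : Prop :=
  (∀ v : Fin 0 → G, Language.Structure.funMap (L := LG) GF.one v = 1) ∧
  (∀ v : Fin 1 → G, Language.Structure.funMap (L := LG) GF.inv v = (v 0)⁻¹) ∧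
  (∀ v : Fin 2 → G, Language.Structure.funMap (L := LG) GF.mul v = v 0 * v 1)

end Pool.Agent.Q206.BG
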