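import Mathlib
import Pool.Agent.Q206.BG.Basic
import Pool.Agent.Q206.BG.Def

/-!
# Types in free groups of exponent `p` with a predicate for the free generators (helper206)
-/

set_option autoImplicit false

namespace Pool.Agent.Q206.BG

open FirstOrder Cardinal

variable {p : ℕ} {I J K : Type}

/-- the free group of exponent `p` with a predicate for the set of free generators -/
instance instStr (p : ℕ) (I : Type) : LG.Structure (B p I) where
  funMap {n} f := match n, f with
    | _, GF.one => fun _ => 1
    | _, GF.inv => fun v => (v 0)⁻¹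
    | _, GF.mul => fun v => v 0 * v 1
  RelMap {n} r := match n, r with
    | _, GR.basis => fun v => ∃ i : I, v 0 = gen i

theorem isGroupReduct_B : IsGroupReduct (B p I) := ⟨fun _ => rfl, fun _ => rfl, fun _ => rfl⟩

/-- injective maps induce embeddings of structures -/
noncomputable def emb (hp : 1 < p) (e : K → I) (he : Function.Injective e) :
    B p K ↪[LG] B p I where
  toFun := bmap e
  inj' := bmap_injective he
  map_fun' {n} f v := by
    match n, f with
    | _, GF.one => exact map_one _
    | _, GF.inv => exact map_inv _ _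
    | _, GF.mul => exact map_mul _ _ _
  map_rel' {n} r v := by
    match n, r with
    | _, GR.basis =>
      constructor
      · rintro ⟨i, hi⟩
        obtain ⟨k, hk, -⟩ := gen_of_bmap hp he hi
        exact ⟨k, hk⟩
      · rintro ⟨k, hk⟩
        refine ⟨e k, ?_⟩
        show bmap e (v 0) = _
        rw [hk, bmap_gen]

theorem emb_apply (hp : 1 < p) (e : K → I) (he : Function.Injective e) (x : B p K) :
    emb hp e he x = bmap e x := rfl

/-- extension of an injection -/
theorem extend_inj {X Y : Type} (A T : Set X) (f : X → Y) (hf : Set.InjOn f A)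
    (hcard : #(T \ A : Set X) ≤ #((f '' A)ᶜ : Set Y)) :
    ∃ g : X → Y, Set.InjOn g (A ∪ T) ∧ Set.EqOn g f A := by
  classical
  obtain ⟨j⟩ := (Cardinal.le_def _ _).1 hcard
  refine ⟨fun x => if h : x ∈ T \ A then (j ⟨x, h⟩ : Y) else f x, ?_, ?_⟩
  · intro x hx y hy hxy
    simp only at hxy
    by_cases h1 : x ∈ T \ A
    · by_cases h2 : y ∈ T \ A
      · rw [dif_pos h1, dif_pos h2] at hxy
        have := j.injective (Subtype.ext hxy)
        exact congrArg Subtype.val this
      · rw [dif_pos h1, dif_neg h2] at hxy
        exfalso
        have hyA : y ∈ A := by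
          rcases hy with h | h
          · exact h
          · by_contra hc; exact h2 ⟨h, hc⟩
        exact (j ⟨x, h1⟩).2 (hxy ▸ ⟨y, hyA, rfl⟩)
    · have hxA : x ∈ A := by
        rcases hx with h | h
        · exact h
        · by_contra hc; exact h1 ⟨h, hc⟩
      by_cases h2 : y ∈ T \ A
      · rw [dif_neg h1, dif_pos h2] at hxy
        exfalso
        exact (j ⟨y, h2⟩).2 (hxy ▸ ⟨x, hxA, rfl⟩)
      · rw [dif_neg h1, dif_neg h2] at hxy
        have hyA : y ∈ A := by
          rcases hy with h | h
          · exact h
          · by_contra hc; exact h2 ⟨h, hc⟩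
        exact hf hxA hyA hxy
  · intro x hx
    show (if h : x ∈ T \ A then (j ⟨x, h⟩ : Y) else f x) = f x
    rw [dif_neg (fun h => h.2 hx)]

theorem extend_step [Infinite J] [Finite K] (e : K → I) (he : Function.Injective e) (e' : K → J)
    (he' : Function.Injective e') (x : B p I) :
    ∃ (K' : Type) (_ : Finite K') (c : K → K') (e1 : K' → I) (e1' : K' → J),
      Function.Injective e1 ∧ Function.Injective e1' ∧ e1 ∘ c = e ∧ e1' ∘ c = e' ∧
      ∃ y : B p K', bmap e1 y = x := by
  classical
  obtain ⟨S, hS⟩ := exists_finset x
  have hfinr : (Set.range e).Finite := Set.finite_range e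
  have hJ : Nonempty J := inferInstance
  let f : I → J := Function.extend e e' (fun _ => hJ.some)
  have hfe : ∀ k, f (e k) = e' k := fun k => he.extend_apply _ _ k
  have hf : Set.InjOn f (Set.range e) := by
    rintro _ ⟨a, rfl⟩ _ ⟨b, rfl⟩ hab
    rw [hfe, hfe] at hab
    rw [he' hab]
  have hcard : #((S : Set I) \ Set.range e : Set I) ≤ #((f '' Set.range e)ᶜ : Set J) := by
    have h1 : (f '' Set.range e).Finite := hfinr.image f
    have h2 : Infinite ((f '' Set.range e)ᶜ : Set J) := h1.infinite_compl.to_subtype
    have h3 : Finite ((S : Set I) \ Set.range e : Set I) :=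
      (S.finite_toSet.subset Set.sdiff_subset).to_subtype
    exact (Cardinal.lt_aleph0_of_finite _).le.trans (Cardinal.aleph0_le_mk _)
  obtain ⟨g, hg1, hg2⟩ := extend_inj (Set.range e) (S : Set I) f hf hcard
  have hfinU : (Set.range e ∪ (S : Set I)).Finite := hfinr.union S.finite_toSet
  obtain ⟨y, hy⟩ := exists_bmap_val (S := Set.range e ∪ (S : Set I)) x
  refine ⟨↥(Set.range e ∪ (S : Set I)), hfinU.to_subtype, fun k => ⟨e k, Or.inl ⟨k, rfl⟩⟩,
    Subtype.val, fun t => g t, Subtype.val_injective, ?_, ?_, ?_, y, ?_⟩
  · intro a b hab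
    exact Subtype.ext (hg1 a.2 b.2 hab)
  · rfl
  · funext k
    show g (e k) = e' k
    rw [hg2 ⟨k, rfl⟩, hfe]
  · rw [hy, ← hS, ret_ret]
    congr 2
    rw [Set.inter_eq_right]
    exact Set.subset_union_right

/-- the type of a tuple depends only on the words -/
theorem bf (hp : 1 < p) {α : Type} {n : ℕ} (φ : LG.BoundedFormula α n) :
    ∀ {I J K : Type} [Infinite I] [Infinite J] [Finite K] (e : K → I) (_ : Function.Injective e)
      (e' : K → J) (_ : Function.Injective e') (u : α → B p K) (us : Fin n → B p K),
      φ.Realize (fun a => bmap e (u a)) (fun a => bmap e (us a)) ↔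
      φ.Realize (fun a => bmap e' (u a)) (fun a => bmap e' (us a)) := by
  induction φ with
  | falsum => intros; exact Iff.rfl
  | @equal m t1 t2 =>
    intro I J K _ _ _ e he e' he' u us
    have key : ∀ {X : Type} (d : K → X) (hd : Function.Injective d) (t : LG.Term (α ⊕ Fin m)),
        t.realize (Sum.elim (fun a => bmap d (u a)) (fun a => bmap d (us a))) =
          bmap d (t.realize (Sum.elim u us)) := by
      intro X d hd t
      have h1 := Language.HomClass.realize_term (emb hp d hd) (t := t) (v := Sum.elim u us)
      rw [emb_apply] at h1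
      rw [← h1]
      congr 1
      funext s
      rcases s with s | s <;> rfl
    show (t1.realize _ = t2.realize _) ↔ (t1.realize _ = t2.realize _)
    rw [key e he, key e he, key e' he', key e' he', (bmap_injective he).eq_iff,
      (bmap_injective he').eq_iff]
  | @rel m l R ts =>
    intro I J K _ _ _ e he e' he' u us
    have key : ∀ {X : Type} (d : K → X) (hd : Function.Injective d) (t : LG.Term (α ⊕ Fin m)),
        t.realize (Sum.elim (fun a => bmap d (u a)) (fun a => bmap d (us a))) =
          bmap d (t.realize (Sum.elim u us)) := by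
      intro X d hd t
      have h1 := Language.HomClass.realize_term (emb hp d hd) (t := t) (v := Sum.elim u us)
      rw [emb_apply] at h1
      rw [← h1]
      congr 1
      funext s
      rcases s with s | s <;> rfl
    have key2 : ∀ {X : Type} (d : K → X) (hd : Function.Injective d),
        (Language.Structure.RelMap R fun i => (ts i).realize
          (Sum.elim (fun a => bmap d (u a)) (fun a => bmap d (us a)))) ↔
        Language.Structure.RelMap R fun i => (ts i).realize (Sum.elim u us) := by
      intro X d hd
      rw [← (emb hp d hd).map_rel R]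
      have : (fun i => (ts i).realize (Sum.elim (fun a => bmap d (u a)) (fun a => bmap d (us a))))
          = (emb hp d hd) ∘ fun i => (ts i).realize (Sum.elim u us) := by
        funext i
        exact key d hd (ts i)
      rw [this]
    show (Language.Structure.RelMap R _) ↔ (Language.Structure.RelMap R _)
    rw [key2 e he, key2 e' he']
  | imp _ _ ih1 ih2 =>
    intro I J K _ _ _ e he e' he' u us
    exact imp_congr (ih1 e he e' he' u us) (ih2 e he e' he' u us)
  | @all m φ ih =>
    intro I J K _ _ _ e he e' he' u us
    have snoc_eq : ∀ {X K' : Type} (c : K → K') (d : K' → X) (y : B p K'),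
        Fin.snoc (fun a => bmap (d ∘ c) (us a)) (bmap d y) =
          fun a => bmap d ((Fin.snoc (fun a => bmap c (us a)) y : Fin (m + 1) → B p K') a) := by
      intro X K' c d y
      funext a
      refine Fin.lastCases ?_ (fun i => ?_) a
      · rw [Fin.snoc_last, Fin.snoc_last]
      · rw [Fin.snoc_castSucc, Fin.snoc_castSucc, bmap_bmap]
    have one_dir : ∀ {X Y : Type} [Infinite X] [Infinite Y] (d : K → X)
        (_ : Function.Injective d) (d' : K → Y) (_ : Function.Injective d'),
        (∀ x, φ.Realize (fun a => bmap d (u a)) (Fin.snoc (fun a => bmap d (us a)) x)) →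
        (∀ x, φ.Realize (fun a => bmap d' (u a)) (Fin.snoc (fun a => bmap d' (us a)) x)) := by
      intro X Y _ _ d hd d' hd' h x
      obtain ⟨K', _, c, e1, e1', h1, h2, h3, h4, y, hy⟩ := extend_step (p := p) d' hd' d hd x
      subst h3 h4
      have h5 := h (bmap e1' y)
      rw [snoc_eq] at h5
      rw [← hy, snoc_eq]
      have e2 : (fun a => bmap (e1' ∘ c) (u a)) = fun a => bmap e1' (bmap c (u a)) := by
        funext a; rw [bmap_bmap]
      have e3 : (fun a => bmap (e1 ∘ c) (u a)) = fun a => bmap e1 (bmap c (u a)) := by
        funext a; rw [bmap_bmap]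
      rw [e2] at h5
      rw [e3]
      exact (ih e1' h2 e1 h1 _ _).1 h5
    exact ⟨one_dir e he e' he', one_dir e' he' e he⟩

theorem bf' (hp : 1 < p) [Infinite I] [Infinite J] [Finite K] (e : K → I)
    (he : Function.Injective e) (e' : K → J) (he' : Function.Injective e') {n : ℕ}
    (u : Fin n → B p K) :
    tp LG (fun a => bmap e (u a)) = tp LG (fun a => bmap e' (u a)) := by
  ext φ
  have k1 : ∀ {M : Type} [LG.Structure M] (w : Fin n → M) (xs : Fin 0 → M),
      Language.BoundedFormula.Realize φ w xs ↔ Language.Formula.Realize φ w := by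
    intro M _ w xs
    unfold Language.Formula.Realize
    rw [Subsingleton.elim xs default]
  have h0 := bf hp φ e he e' he' u (fun i : Fin 0 => i.elim0)
  rw [k1, k1] at h0
  exact h0

/-- maps which are injective on a set preserve the types of the tuples supported on it -/
theorem tp_bmap (hp : 1 < p) [Infinite I] [Infinite J] (h : I → J) (S : Set I)
    (hS : Set.InjOn h S) {n : ℕ} (v : Fin n → B p I) (hv : ∀ i, ret S (v i) = v i) :
    tp LG v = tp LG (fun i => bmap h (v i)) := by
  classical
  choose T hT using fun i => exists_finset (v i)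
  let R : Set I := S ∩ ⋃ i, (T i : Set I)
  have hRfin : R.Finite :=
    (Set.finite_iUnion fun i => (T i).finite_toSet).subset Set.inter_subset_right
  have hRv : ∀ i, ret R (v i) = v i := by
    intro i
    have h1 : ret (⋃ i, (T i : Set I)) (v i) = v i := by
      rw [← hT i, ret_ret]
      congr 2
      rw [Set.inter_eq_right]
      exact Set.subset_iUnion (fun i => (T i : Set I)) i
    calc ret R (v i) = ret S (ret (⋃ i, (T i : Set I)) (v i)) := by rw [ret_ret]
      _ = v i := by rw [h1, hv]
  choose u hu using fun i => exists_bmap_val (S := R) (v i)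
  have hfin : Finite R := hRfin.to_subtype
  have e1 : v = fun i => bmap Subtype.val (u i) := by
    funext i
    rw [hu, hRv]
  have e2 : (fun i => bmap h (v i)) = fun i => bmap (h ∘ Subtype.val) (u i) := by
    funext i
    rw [e1, bmap_bmap]
  rw [e2]
  conv_lhs => rw [e1]
  apply bf' hp _ Subtype.val_injective
  intro a b hab
  exact Subtype.ext (hS a.2.1 b.2.1 hab)

end Pool.Agent.Q206.BG
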