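import Mathlib
import Pool.Agent.Q206.BG.BF

/-!
# The `D`-models for the diagram `D` of the free group of exponent `p` with a predicate for the
free generators are the free groups of exponent `p` of infinite rank (helper206)
-/

set_option autoImplicit false

namespace Pool.Agent.Q206.BG

open FirstOrder Cardinal Language.Structure

/-- the term `1` -/
def oneT {α : Type} : LG.Term α := Language.Constants.term (L := LG) GF.one

/-- the term `t⁻¹` -/
def invT {α : Type} (t : LG.Term α) : LG.Term α := Language.Functions.apply₁ (L := LG) GF.inv t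

/-- the term `t * s` -/
def mulT {α : Type} (t s : LG.Term α) : LG.Term α :=
  Language.Functions.apply₂ (L := LG) GF.mul t s

/-- the formula `t ∈ P` -/
def basF {α : Type} (t : LG.Term α) : LG.Formula α := Language.Relations.formula₁ (L := LG) GR.basis t

/-- words as terms -/
def wt {α : Type} : List (α × Bool) → LG.Term α
  | [] => oneT
  | (a, true) :: l => mulT (Language.Term.var a) (wt l)
  | (a, false) :: l => mulT (invT (Language.Term.var a)) (wt l)

/-- the predicate for the basis -/
def Bas (M : Type) [LG.Structure M] (x : M) : Prop := RelMap (L := LG) GR.basis ![x]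

theorem realize_basF {M α : Type} [LG.Structure M] (t : LG.Term α) (v : α → M) :
    (basF t).Realize v ↔ Bas M (t.realize v) := by
  unfold basF Bas
  rw [Language.Formula.realize_rel₁]

theorem realize_wt {M α : Type} [LG.Structure M] [Group M] (hM : IsGroupReduct M) (v : α → M)
    (l : List (α × Bool)) : (wt l).realize v = FreeGroup.lift v (FreeGroup.mk l) := by
  rw [FreeGroup.lift_mk]
  induction l with
  | nil =>
    show Language.Term.realize v (Language.Constants.term (L := LG) GF.one) = _
    rw [Language.Term.realize_constants]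
    exact hM.1 _
  | cons a l ih =>
    obtain ⟨a, b⟩ := a
    rw [List.map_cons, List.prod_cons, ← ih]
    cases b with
    | true =>
      show Language.Term.realize v (Language.Functions.apply₂ (L := LG) GF.mul _ _) = _
      rw [Language.Term.realize_functions_apply₂, hM.2.2]
      rfl
    | false =>
      show Language.Term.realize v (Language.Functions.apply₂ (L := LG) GF.mul
        (Language.Functions.apply₁ (L := LG) GF.inv _) _) = _
      rw [Language.Term.realize_functions_apply₂, hM.2.2, Matrix.cons_val_zero,
        Language.Term.realize_functions_apply₁, hM.2.1]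
      rfl

theorem bas_B {p : ℕ} {I : Type} (x : B p I) : Bas (B p I) x ↔ ∃ i, x = gen i := Iff.rfl

variable {p : ℕ} {N : Type} [LG.Structure N]

theorem real_tuple (hN : IsDModel LG (diagram LG (B p ℕ)) N) {n : ℕ} (v : Fin n → N) :
    ∃ v' : Fin n → B p ℕ, ∀ φ : LG.Formula (Fin n), φ.Realize v ↔ φ.Realize v' := by
  obtain ⟨v', hv'⟩ := hN n v
  refine ⟨v', fun φ => ?_⟩
  have := Set.ext_iff.1 hv' φ
  exact this.symm

theorem exists_group (hN : IsDModel LG (diagram LG (B p ℕ)) N) :
    ∃ _ : Group N, IsGroupReduct N := by
  let _ : Mul N := ⟨fun x y => funMap (L := LG) GF.mul ![x, y]⟩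
  let _ : Inv N := ⟨fun x => funMap (L := LG) GF.inv ![x]⟩
  let _ : One N := ⟨funMap (L := LG) GF.one ![]⟩
  have r1 : ∀ {α : Type} (v : α → N), (oneT : LG.Term α).realize v = 1 := by
    intro α v
    show Language.Term.realize v (Language.Constants.term (L := LG) GF.one) = _
    rw [Language.Term.realize_constants]
    show funMap (L := LG) GF.one _ = funMap (L := LG) GF.one _
    congr 1
  have r2 : ∀ {α : Type} (t : LG.Term α) (v : α → N), (invT t).realize v = (t.realize v)⁻¹ := by
    intro α t v
    show Language.Term.realize v (Language.Functions.apply₁ (L := LG) GF.inv _) = _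
    rw [Language.Term.realize_functions_apply₁]
    rfl
  have r3 : ∀ {α : Type} (t s : LG.Term α) (v : α → N),
      (mulT t s).realize v = t.realize v * s.realize v := by
    intro α t s v
    show Language.Term.realize v (Language.Functions.apply₂ (L := LG) GF.mul _ _) = _
    rw [Language.Term.realize_functions_apply₂]
    rfl
  have s1 : ∀ {α : Type} (v : α → B p ℕ), (oneT : LG.Term α).realize v = 1 := by
    intro α v
    show Language.Term.realize v (Language.Constants.term (L := LG) GF.one) = _
    rw [Language.Term.realize_constants]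
    rfl
  have s2 : ∀ {α : Type} (t : LG.Term α) (v : α → B p ℕ),
      (invT t).realize v = (t.realize v)⁻¹ := by
    intro α t v
    show Language.Term.realize v (Language.Functions.apply₁ (L := LG) GF.inv _) = _
    rw [Language.Term.realize_functions_apply₁]
    rfl
  have s3 : ∀ {α : Type} (t s : LG.Term α) (v : α → B p ℕ),
      (mulT t s).realize v = t.realize v * s.realize v := by
    intro α t s v
    show Language.Term.realize v (Language.Functions.apply₂ (L := LG) GF.mul _ _) = _
    rw [Language.Term.realize_functions_apply₂]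
    rfl
  have h1 : ∀ a b c : N, a * b * c = a * (b * c) := by
    intro a b c
    obtain ⟨v', hv'⟩ := real_tuple hN ![a, b, c]
    have := hv' (Language.Term.equal
      (mulT (mulT (Language.Term.var 0) (Language.Term.var 1)) (Language.Term.var 2))
      (mulT (Language.Term.var 0) (mulT (Language.Term.var 1) (Language.Term.var 2))))
    rw [Language.Formula.realize_equal, Language.Formula.realize_equal] at this
    simp only [r3, s3, Language.Term.realize_var] at this
    exact this.2 (mul_assoc _ _ _)
  have h2 : ∀ a : N, 1 * a = a := by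
    intro a
    obtain ⟨v', hv'⟩ := real_tuple hN ![a]
    have := hv' (Language.Term.equal (mulT oneT (Language.Term.var 0)) (Language.Term.var 0))
    rw [Language.Formula.realize_equal, Language.Formula.realize_equal] at this
    simp only [r1, r3, s1, s3, Language.Term.realize_var] at this
    exact this.2 (one_mul _)
  have h3 : ∀ a : N, a⁻¹ * a = 1 := by
    intro a
    obtain ⟨v', hv'⟩ := real_tuple hN ![a]
    have := hv' (Language.Term.equal (mulT (invT (Language.Term.var 0)) (Language.Term.var 0)) oneT)
    rw [Language.Formula.realize_equal, Language.Formula.realize_equal] at this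
    simp only [r1, r2, r3, s1, s2, s3, Language.Term.realize_var] at this
    exact this.2 (inv_mul_cancel _)
  refine ⟨Group.ofLeftAxioms h1 h2 h3, ?_, ?_, ?_⟩
  · intro v
    show funMap (L := LG) GF.one v = funMap (L := LG) GF.one ![]
    congr 1
    exact Subsingleton.elim _ _
  · intro v
    show funMap (L := LG) GF.inv v = funMap (L := LG) GF.inv ![v 0]
    congr 1
    funext i
    fin_cases i
    rfl
  · intro v
    show funMap (L := LG) GF.mul v = funMap (L := LG) GF.mul ![v 0, v 1]
    congr 1
    funext i
    fin_cases i <;> rfl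

/-- every element of `B p I` is a word in finitely many generators -/
theorem exists_word {I : Type} (x : B p I) : ∃ (k : ℕ) (e : Fin k → I) (l : List (Fin k × Bool)),
    Function.Injective e ∧ bmap e ((FreeGroup.mk l : FreeGroup (Fin k)) : B p (Fin k)) = x := by
  classical
  obtain ⟨S, hS⟩ := exists_finset x
  obtain ⟨y, hy⟩ := exists_bmap_val (S := (S : Set I)) x
  obtain ⟨k, ⟨c⟩⟩ := Finite.exists_equiv_fin (S : Set I)
  obtain ⟨w, hw⟩ := QuotientGroup.mk_surjective (bmap c y)
  refine ⟨k, fun i => (c.symm i : I), FreeGroup.toWord w, ?_, ?_⟩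
  · intro a b hab
    exact c.symm.injective (Subtype.ext hab)
  · rw [FreeGroup.mk_toWord, hw, bmap_bmap, ← hS, ← hy]
    congr 2
    funext i
    show ((c.symm (c i) : (S : Set I)) : I) = i
    rw [Equiv.symm_apply_apply]

theorem bmap_mk {I J : Type} (e : I → J) (w : FreeGroup I) :
    bmap e (w : B p I) = FreeGroup.lift (fun i => (gen (e i) : B p J)) w := rfl

/-- a `D`-model is isomorphic to the free group of exponent `p` over the elements of its
predicate -/
theorem exists_iso (hp : 1 < p) (hN : IsDModel LG (diagram LG (B p ℕ)) N) :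
    Nonempty (B p {x : N // Bas N x} ≃[LG] N) := by
  classical
  obtain ⟨_, hG⟩ := exists_group hN
  have hGB : IsGroupReduct (B p ℕ) := isGroupReduct_B
  have hpow : ∀ g : N, g ^ p = 1 := by
    intro g
    obtain ⟨v', hv'⟩ := real_tuple hN ![g]
    have := hv' (Language.Term.equal (wt (List.replicate p ((0 : Fin 1), true))) (wt []))
    rw [Language.Formula.realize_equal, Language.Formula.realize_equal, realize_wt hG,
      realize_wt hG, realize_wt hGB, realize_wt hGB] at this
    simp only [FreeGroup.lift_mk, List.map_replicate, List.prod_replicate, List.map_nil,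
      List.prod_nil, cond_true] at this
    exact this.2 (pow_eq_one _)
  let P := {x : N // Bas N x}
  let Ψ : B p P →* N := lift hpow (fun x => (x : N))
  have hΨ : ∀ x : P, Ψ (gen x) = x := fun x => lift_gen _ _ _
  have hΨmk : ∀ {k : ℕ} (e : Fin k → P) (l : List (Fin k × Bool)),
      Ψ (bmap e ((FreeGroup.mk l : FreeGroup (Fin k)) : B p (Fin k))) =
        (wt l).realize (fun i => ((e i : P) : N)) := by
    intro k e l
    rw [realize_wt hG]
    have : Ψ.comp (bmap e) = lift hpow (fun i => ((e i : P) : N)) := by
      apply hom_ext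
      intro i
      rw [MonoidHom.comp_apply, bmap_gen, hΨ, lift_gen]
    exact DFunLike.congr_fun this _
  have hinj : Function.Injective Ψ := by
    rw [injective_iff_map_eq_one]
    intro y hy
    obtain ⟨k, e, l, he, rfl⟩ := exists_word y
    rw [hΨmk] at hy
    obtain ⟨v', hv'⟩ := real_tuple hN (fun i => ((e i : P) : N))
    have h1 : ∀ i, ∃ m, v' i = gen m := by
      intro i
      have h2 := hv' (basF (Language.Term.var i))
      rw [realize_basF, realize_basF] at h2
      exact (bas_B _).1 (h2.1 (e i).2)
    choose m hm using h1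
    have hminj : Function.Injective m := by
      intro i j hij
      have h2 := hv' (Language.Term.equal (Language.Term.var i) (Language.Term.var j))
      rw [Language.Formula.realize_equal, Language.Formula.realize_equal] at h2
      simp only [Language.Term.realize_var] at h2
      have h3 : v' i = v' j := by rw [hm, hm, hij]
      exact he (Subtype.ext (h2.2 h3))
    have h4 := hv' (Language.Term.equal (wt l) (wt []))
    rw [Language.Formula.realize_equal, Language.Formula.realize_equal] at h4
    have h5 : (wt ([] : List (Fin k × Bool))).realize (fun i => ((e i : P) : N)) = 1 := by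
      rw [realize_wt hG]; simp [FreeGroup.lift_mk]
    have h6 : (wt ([] : List (Fin k × Bool))).realize v' = 1 := by
      rw [realize_wt hGB]; simp [FreeGroup.lift_mk]
    rw [h5, h6] at h4
    have h7 := h4.1 hy
    rw [realize_wt hGB] at h7
    have h8 : bmap m ((FreeGroup.mk l : FreeGroup (Fin k)) : B p (Fin k)) = 1 := by
      rw [bmap_mk, ← h7]
      congr 2
      funext i
      exact (hm i).symm
    have h9 : ((FreeGroup.mk l : FreeGroup (Fin k)) : B p (Fin k)) = 1 := by
      apply bmap_injective hminj
      rw [h8, map_one]
    rw [h9, map_one]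
  have hsurj : Function.Surjective Ψ := by
    intro x
    obtain ⟨v', hv'⟩ := real_tuple hN ![x]
    obtain ⟨k, e, l, he, hx⟩ := exists_word (v' 0)
    let φ : LG.Formula (Fin 1 ⊕ Fin k) :=
      (Language.Formula.iInf (fun i : Fin k => basF (Language.Term.var (Sum.inr i)))) ⊓
        Language.Term.equal (Language.Term.var (Sum.inl 0)) ((wt l).relabel Sum.inr)
    have hφ : ∀ {M : Type} [LG.Structure M] (v : Fin 1 → M), (φ.iExs (Fin k)).Realize v ↔
        ∃ z : Fin k → M, (∀ i, Bas M (z i)) ∧ v 0 = (wt l).realize z := by
      intro M _ v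
      rw [Language.Formula.realize_iExs]
      refine exists_congr fun z => ?_
      show (_ ⊓ _ : LG.Formula _).Realize _ ↔ _
      rw [Language.Formula.realize_inf, Language.Formula.realize_iInf,
        Language.Formula.realize_equal, Language.Term.realize_relabel]
      simp only [realize_basF, Language.Term.realize_var, Sum.elim_inr, Sum.elim_inl,
        Sum.elim_comp_inr]
    have h1 := hv' (φ.iExs (Fin k))
    rw [hφ, hφ] at h1
    obtain ⟨z, hz1, hz2⟩ := h1.2 ⟨fun i => gen (e i), fun i => ⟨e i, rfl⟩, by
      rw [realize_wt hGB, ← hx]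
      rfl⟩
    refine ⟨lift pow_eq_one (fun i => gen ⟨z i, hz1 i⟩ : Fin k → B p P)
      ((FreeGroup.mk l : FreeGroup (Fin k)) : B p (Fin k)), ?_⟩
    have h2 : Ψ.comp (lift pow_eq_one (fun i => gen ⟨z i, hz1 i⟩ : Fin k → B p P)) =
        lift hpow z := by
      apply hom_ext
      intro i
      rw [MonoidHom.comp_apply, lift_gen, hΨ, lift_gen]
    have h2' := DFunLike.congr_fun h2 ((FreeGroup.mk l : FreeGroup (Fin k)) : B p (Fin k))
    rw [MonoidHom.comp_apply] at h2'
    rw [h2']
    have h3 : x = (wt l).realize z := hz2
    rw [h3, realize_wt hG]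
    rfl
  let E : B p P ≃ N := Equiv.ofBijective Ψ ⟨hinj, hsurj⟩
  refine ⟨{ toEquiv := E, map_fun' := ?_, map_rel' := ?_ }⟩
  · intro n f v
    match n, f with
    | _, GF.one =>
      show Ψ 1 = _
      rw [map_one]
      exact (hG.1 _).symm
    | _, GF.inv =>
      show Ψ (v 0)⁻¹ = _
      rw [map_inv]
      exact (hG.2.1 (fun i => Ψ (v i))).symm
    | _, GF.mul =>
      show Ψ (v 0 * v 1) = _
      rw [map_mul]
      exact (hG.2.2 (fun i => Ψ (v i))).symm
  · intro n r v
    match n, r with
    | _, GR.basis =>
      have e1 : ∀ w : Fin 1 → N, RelMap (L := LG) GR.basis w ↔ Bas N (w 0) := by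
        intro w
        unfold Bas
        have : w = ![w 0] := by
          funext i
          fin_cases i
          rfl
        rw [← this]
      rw [e1]
      show Bas N (Ψ (v 0)) ↔ ∃ i, v 0 = gen i
      constructor
      · intro h
        refine ⟨⟨_, h⟩, ?_⟩
        apply hinj
        rw [hΨ]
      · rintro ⟨i, hi⟩
        rw [hi, hΨ]
        exact i.2

/-- the predicate of a `D`-model is infinite -/
theorem infinite_bas (hp : 1 < p) (hN : IsDModel LG (diagram LG (B p ℕ)) N) :
    Infinite {x : N // Bas N x} := by
  classical
  by_contra hfin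
  rw [not_infinite_iff_finite] at hfin
  obtain ⟨k, ⟨c⟩⟩ := Finite.exists_equiv_fin {x : N // Bas N x}
  obtain ⟨v', hv'⟩ := real_tuple hN (fun i : Fin 0 => i.elim0)
  let φ : LG.Formula (Fin 0 ⊕ Fin (k + 1)) :=
    (Language.Formula.iInf (fun i : Fin (k + 1) => basF (Language.Term.var (Sum.inr i)))) ⊓
      Language.Formula.iInf (fun ij : {ij : Fin (k + 1) × Fin (k + 1) // ij.1 ≠ ij.2} =>
        Language.Formula.not (Language.Term.equal (Language.Term.var (Sum.inr ij.1.1))
          (Language.Term.var (Sum.inr ij.1.2))))
  have hφ : ∀ {M : Type} [LG.Structure M] (v : Fin 0 → M), (φ.iExs (Fin (k + 1))).Realize v ↔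
      ∃ z : Fin (k + 1) → M, (∀ i, Bas M (z i)) ∧ Function.Injective z := by
    intro M _ v
    rw [Language.Formula.realize_iExs]
    refine exists_congr fun z => ?_
    show (_ ⊓ _ : LG.Formula _).Realize _ ↔ _
    rw [Language.Formula.realize_inf, Language.Formula.realize_iInf,
      Language.Formula.realize_iInf]
    simp only [realize_basF, Language.Term.realize_var, Sum.elim_inr,
      Language.Formula.realize_not, Language.Formula.realize_equal]
    refine and_congr_right fun _ => ?_
    constructor
    · intro h i j hij
      by_contra hne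
      exact h ⟨(i, j), hne⟩ hij
    · intro h ij hij
      exact ij.2 (h hij)
  have h1 := hv' (φ.iExs (Fin (k + 1)))
  rw [hφ, hφ] at h1
  obtain ⟨z, hz1, hz2⟩ := h1.2 ⟨fun i => gen (i : ℕ), fun i => ⟨_, rfl⟩, fun i j hij =>
    Fin.ext (gen_injective hp hij)⟩
  have h2 : Function.Injective (fun i : Fin (k + 1) => c ⟨z i, hz1 i⟩) := by
    intro i j hij
    exact hz2 (congrArg Subtype.val (c.injective hij))
  have := Fintype.card_le_of_injective _ h2
  simp at this

/-- the cardinality of the free group of exponent `p` of infinite rank -/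
theorem mk_B (hp : 1 < p) (I : Type) [Infinite I] : #(B p I) = #I := by
  apply le_antisymm
  · have h1 : #(B p I) ≤ #(FreeGroup I) :=
      Cardinal.mk_le_of_surjective QuotientGroup.mk_surjective
    rw [Cardinal.mk_freeGroup, max_eq_left (Cardinal.aleph0_le_mk I)] at h1
    exact h1
  · exact Cardinal.mk_le_of_injective (gen_injective hp)

/-- bijections induce isomorphisms -/
noncomputable def isoOfEquiv (hp : 1 < p) {I J : Type} (e : I ≃ J) : B p I ≃[LG] B p J where
  toEquiv := Equiv.ofBijective (emb hp e e.injective) ⟨(emb hp e e.injective).injective, by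
    intro y
    refine ⟨bmap e.symm y, ?_⟩
    rw [emb_apply, bmap_bmap, Equiv.self_comp_symm]
    exact bmap_id y⟩
  map_fun' f v := (emb hp e e.injective).map_fun f v
  map_rel' r v := (emb hp e e.injective).map_rel r v

theorem categorical_B (hp : 1 < p) {κ : Cardinal.{0}} (hκ : ℵ₀ ≤ κ) :
    Categorical LG (diagram LG (B p ℕ)) κ := by
  intro M N _ _ hM hN hMκ hNκ
  obtain ⟨eM⟩ := exists_iso hp hM
  obtain ⟨eN⟩ := exists_iso hp hN
  have := infinite_bas hp hM
  have := infinite_bas hp hN
  have h1 : #{x : M // Bas M x} = κ := by
    rw [← mk_B hp, ← hMκ]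
    exact Cardinal.mk_congr eM.toEquiv
  have h2 : #{x : N // Bas N x} = κ := by
    rw [← mk_B hp, ← hNκ]
    exact Cardinal.mk_congr eN.toEquiv
  obtain ⟨c⟩ := Cardinal.eq.1 (h1.trans h2.symm)
  exact ⟨eN.comp ((isoOfEquiv hp c).comp eM.symm)⟩

end Pool.Agent.Q206.BG
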