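import Mathlib
import Pool.Agent.Q206.BG.DModel

/-!
# Homogeneity of free groups of exponent `p` with a predicate for the free generators (helper206)
-/

set_option autoImplicit false

namespace Pool.Agent.Q206.BG

open FirstOrder Cardinal Language.Structure

variable {p : ℕ} {I J : Type}

theorem bmap_congr {S : Set I} {x : B p I} (hx : ret S x = x) {f g : I → J} (h : Set.EqOn f g S) :
    bmap f x = bmap g x := by
  obtain ⟨y, hy⟩ := exists_bmap_val (S := S) x
  rw [← hx, ← hy, bmap_bmap, bmap_bmap]
  congr 2
  funext i
  exact h i.2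

/-- the support of an element -/
def supp (x : B p I) : Set I := {i | ret {j | j ≠ i} x ≠ x}

theorem supp_subset {S : Set I} {x : B p I} (h : ret S x = x) : supp x ⊆ S := by
  intro i hi
  by_contra hiS
  apply hi
  rw [← h, ret_ret]
  congr 2
  rw [Set.inter_eq_right]
  intro j hj
  rintro rfl
  exact hiS hj

theorem supp_finite (x : B p I) : (supp x).Finite := by
  obtain ⟨S, hS⟩ := exists_finset x
  exact S.finite_toSet.subset (supp_subset hS)

theorem ret_supp (x : B p I) : ret (supp x) x = x := by
  classical
  obtain ⟨S, hS⟩ := exists_finset x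
  have key : ∀ T : Finset I, (∀ t ∈ T, t ∉ supp x) → ret ((S : Set I) \ (T : Set I)) x = x := by
    intro T
    induction T using Finset.induction_on with
    | empty => intro _; simpa using hS
    | insert t T ht ih =>
      intro h
      have h1 := ih (fun s hs => h s (Finset.mem_insert_of_mem hs))
      have h2 : ret {j | j ≠ t} x = x := by
        have := h t (Finset.mem_insert_self _ _)
        unfold supp at this
        rw [Set.mem_ofPred_eq, not_not] at this
        exact this
      have e : (S : Set I) \ ((insert t T : Finset I) : Set I) =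
          {j | j ≠ t} ∩ ((S : Set I) \ (T : Set I)) := by
        ext j
        simp only [Finset.coe_insert, Set.mem_sdiff, Set.mem_insert_iff, Set.mem_inter_iff,
          Set.mem_ofPred_eq, not_or, Finset.mem_coe]
        tauto
      rw [e, ← ret_ret, h1, h2]
  have h1 := key (S.filter (fun i => i ∉ supp x)) (fun t ht => (Finset.mem_filter.1 ht).2)
  have h2 : (S : Set I) \ ((S.filter (fun i => i ∉ supp x) : Finset I) : Set I) = supp x := by
    ext j
    simp only [Finset.coe_filter, Set.mem_sdiff, Set.mem_ofPred_eq, Finset.mem_coe]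
    constructor
    · rintro ⟨h3, h4⟩
      by_contra h5
      exact h4 ⟨h3, h5⟩
    · intro h3
      exact ⟨supp_subset hS h3, fun h4 => h4.2 h3⟩
  rw [h2] at h1
  exact h1

theorem ret_of_supp_subset {S : Set I} {x : B p I} (h : supp x ⊆ S) : ret S x = x := by
  calc ret S x = ret S (ret (supp x) x) := by rw [ret_supp]
    _ = ret (supp x) x := by rw [ret_ret, Set.inter_eq_right.2 h]
    _ = x := ret_supp x

theorem supp_perm (σ : Equiv.Perm I) {x : B p I} {s : I} (hs : s ∈ supp x) :
    σ s ∈ supp (bmap σ x) := by
  intro h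
  apply hs
  have e : ∀ y : B p I, ret {j | j ≠ σ s} (bmap σ y) = bmap σ (ret {j | j ≠ s} y) := by
    intro y
    have : (ret {j | j ≠ σ s}).comp (bmap σ) =
        ((bmap σ).comp (ret {j | j ≠ s}) : B p I →* B p I) := by
      apply hom_ext
      intro i
      rw [MonoidHom.comp_apply, MonoidHom.comp_apply, bmap_gen]
      by_cases hi : i = s
      · subst hi
        rw [ret_gen_notMem (by simp), ret_gen_notMem (by simp), map_one]
      · rw [ret_gen_mem (by simpa using hi), ret_gen_mem (by simpa using hi), bmap_gen]
    exact DFunLike.congr_fun this y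
  rw [e] at h
  exact bmap_injective σ.injective h

/-- common words for a tuple -/
theorem common_words {n : ℕ} (v : Fin n → B p I) : ∃ (k : ℕ) (e : Fin k → I)
    (l : Fin n → List (Fin k × Bool)), Function.Injective e ∧
      ∀ j, v j = bmap e ((FreeGroup.mk (l j) : FreeGroup (Fin k)) : B p (Fin k)) := by
  classical
  let R : Set I := ⋃ i, supp (v i)
  have hRfin : R.Finite := Set.finite_iUnion fun i => supp_finite _
  have hRv : ∀ i, ret R (v i) = v i := fun i =>
    ret_of_supp_subset (Set.subset_iUnion (fun i => supp (v i)) i)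
  choose u hu using fun i => exists_bmap_val (S := R) (v i)
  have hfin : Finite R := hRfin.to_subtype
  obtain ⟨k, ⟨c⟩⟩ := Finite.exists_equiv_fin R
  choose w hw using fun i => QuotientGroup.mk_surjective (bmap c (u i))
  refine ⟨k, fun i => (c.symm i : I), fun i => FreeGroup.toWord (w i), ?_, fun j => ?_⟩
  · intro a b hab
    exact c.symm.injective (Subtype.ext hab)
  · rw [FreeGroup.mk_toWord, hw, bmap_bmap, ← hRv, ← hu]
    congr 2
    funext i
    show (i : I) = ((c.symm (c i) : R) : I)
    rw [Equiv.symm_apply_apply]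

/-- finite tuples of the same type are conjugate by a permutation of the generators -/
theorem exists_perm (hp : 1 < p) {n : ℕ} {v w : Fin n → B p I} (h : tp LG v = tp LG w) :
    ∃ σ : Equiv.Perm I, ∀ j, bmap σ (v j) = w j := by
  classical
  have hGB : IsGroupReduct (B p I) := isGroupReduct_B
  obtain ⟨k, e, l, he, hv⟩ := common_words v
  let φ : LG.Formula (Fin n ⊕ Fin k) :=
    ((Language.Formula.iInf (fun i : Fin k => basF (Language.Term.var (Sum.inr i)))) ⊓
      Language.Formula.iInf (fun ij : {ij : Fin k × Fin k // ij.1 ≠ ij.2} =>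
        Language.Formula.not (Language.Term.equal (Language.Term.var (Sum.inr ij.1.1))
          (Language.Term.var (Sum.inr ij.1.2))))) ⊓
      Language.Formula.iInf (fun j : Fin n =>
        Language.Term.equal (Language.Term.var (Sum.inl j)) ((wt (l j)).relabel Sum.inr))
  have hφ : ∀ v : Fin n → B p I, (φ.iExs (Fin k)).Realize v ↔
      ∃ z : Fin k → B p I, ((∀ i, Bas (B p I) (z i)) ∧ Function.Injective z) ∧
        ∀ j, v j = (wt (l j)).realize z := by
    intro v
    rw [Language.Formula.realize_iExs]
    refine exists_congr fun z => ?_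
    show (_ ⊓ _ : LG.Formula _).Realize _ ↔ _
    rw [Language.Formula.realize_inf, Language.Formula.realize_inf,
      Language.Formula.realize_iInf, Language.Formula.realize_iInf, Language.Formula.realize_iInf]
    simp only [realize_basF, Language.Term.realize_var, Sum.elim_inr, Sum.elim_inl,
      Language.Formula.realize_not, Language.Formula.realize_equal, Language.Term.realize_relabel,
      Sum.elim_comp_inr]
    refine and_congr_left fun _ => and_congr_right fun _ => ?_
    constructor
    · intro h i j hij
      by_contra hne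
      exact h ⟨(i, j), hne⟩ hij
    · intro h ij hij
      exact ij.2 (h hij)
  have h1 : (φ.iExs (Fin k)).Realize v ↔ (φ.iExs (Fin k)).Realize w := Set.ext_iff.1 h _
  rw [hφ, hφ] at h1
  obtain ⟨z, ⟨hz1, hz2⟩, hz3⟩ := h1.1 ⟨fun i => gen (e i), ⟨fun i => ⟨e i, rfl⟩,
    (gen_injective hp).comp he⟩, by
    intro j
    rw [realize_wt hGB, hv j]
    rfl⟩
  choose m hm using fun i => (bas_B _).1 (hz1 i)
  have hminj : Function.Injective m := by
    intro i j hij
    apply hz2
    rw [hm, hm, hij]
  obtain ⟨σ, hσ⟩ := Equiv.Perm.exists_extending_pair e m he hminj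
  refine ⟨σ, fun j => ?_⟩
  have e1 : (σ : I → I) ∘ e = m := funext hσ
  have e2 : z = fun i => gen (m i) := funext hm
  rw [hv j, bmap_bmap, e1, hz3 j, realize_wt hGB, e2]
  rfl

theorem homogeneous_B (hp : 1 < p) [Infinite I] : Homogeneous LG #I (B p I) := by
  classical
  intro A f hf hA a
  -- local solutions
  have hloc : ∀ F : Finset A, ∃ σ : Equiv.Perm I, ∀ x ∈ F, bmap σ (x : B p I) = f x := by
    intro F
    let c := F.equivFin
    obtain ⟨σ, hσ⟩ := exists_perm hp (hf _ (fun i => (c.symm i : A)))
    refine ⟨σ, fun x hx => ?_⟩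
    have := hσ (c ⟨x, hx⟩)
    simpa using this
  choose σ hσ using hloc
  -- the limit
  let U : Ultrafilter (Finset A) := Ultrafilter.of Filter.atTop
  have hU : ∀ x : A, ∀ᶠ F in (U : Filter (Finset A)), x ∈ F := by
    intro x
    have h1 : ∀ᶠ F : Finset A in Filter.atTop, {x} ≤ F := Filter.eventually_ge_atTop {x}
    have h2 := Ultrafilter.of_le (Filter.atTop : Filter (Finset A)) h1
    filter_upwards [h2] with F hF
    exact hF (Finset.mem_singleton_self x)
  let S : Set I := ⋃ x : A, supp (x : B p I)
  have hlim : ∀ s : I, s ∈ S → ∃ t : I, ∀ᶠ F in (U : Filter (Finset A)), σ F s = t := by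
    intro s hs
    obtain ⟨x, hx⟩ := Set.mem_iUnion.1 hs
    have h1 : (⋃ t ∈ supp (f x), {F | σ F s = t}) ∈ U := by
      have h2 := hU x
      filter_upwards [h2] with F hF
      have h3 := supp_perm (σ F) hx
      rw [hσ F x hF] at h3
      simp only [Set.mem_iUnion]
      exact ⟨σ F s, h3, rfl⟩
    obtain ⟨t, -, ht⟩ := (Ultrafilter.finite_biUnion_mem_iff (supp_finite (f x))).1 h1
    exact ⟨t, ht⟩
  choose! h hh using hlim
  have hinj : Set.InjOn h S := by
    intro s hs t ht hst
    obtain ⟨F, h1, h2⟩ := ((hh s hs).and (hh t ht)).exists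
    apply (σ F).injective
    rw [h1, h2, hst]
  have hval : ∀ x : A, bmap h (x : B p I) = f x := by
    intro x
    have h1 : ∀ᶠ F in (U : Filter (Finset A)), ∀ s ∈ supp (x : B p I), σ F s = h s := by
      rw [Filter.eventually_all_finite (supp_finite _)]
      intro s hs
      exact hh s (Set.mem_iUnion.2 ⟨x, hs⟩)
    obtain ⟨F, h2, h3⟩ := (h1.and (hU x)).exists
    rw [← hσ F x h3]
    exact bmap_congr (ret_supp _) (fun s hs => (h2 s hs).symm)
  -- the cardinality of the support
  have hScard : #S < #I := by
    by_cases hfin : Finite A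
    · have : S.Finite := Set.finite_iUnion fun x => supp_finite _
      exact (Cardinal.lt_aleph0_iff_set_finite.2 this).trans_le (Cardinal.aleph0_le_mk I)
    · rw [not_finite_iff_infinite] at hfin
      have hA0 := Cardinal.aleph0_le_mk A
      have h1 : #S ≤ Cardinal.sum (fun x : A => #(supp (x : B p I))) :=
        Cardinal.mk_iUnion_le_sum_mk
      have h2 : Cardinal.sum (fun x : A => #(supp (x : B p I))) ≤
          Cardinal.sum (fun _ : A => ℵ₀) := by
        apply Cardinal.sum_le_sum
        intro x
        exact (Cardinal.lt_aleph0_iff_set_finite.2 (supp_finite _)).le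
      rw [Cardinal.sum_const', Cardinal.mul_aleph0_eq hA0] at h2
      exact (h1.trans h2).trans_lt hA
  -- room for one more element
  have hcard : #(supp a \ S : Set I) ≤ #((h '' S)ᶜ : Set I) := by
    have h1 : #(h '' S) < #I := (Cardinal.mk_image_le).trans_lt hScard
    have h2 : #((h '' S)ᶜ : Set I) = #I := Cardinal.mk_compl_of_infinite _ h1
    rw [h2]
    have h3 : (supp a \ S).Finite := (supp_finite a).subset Set.sdiff_subset
    exact ((Cardinal.lt_aleph0_iff_set_finite.2 h3).trans_le (Cardinal.aleph0_le_mk I)).le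
  obtain ⟨g, hg1, hg2⟩ := extend_inj S (supp a) h hinj hcard
  refine ⟨insert a A, fun x => bmap g (x : B p I), Set.subset_insert a A, ?_,
    Set.mem_insert a A, ?_⟩
  · intro n v
    apply tp_bmap hp g (S ∪ supp a) hg1
    intro i
    apply ret_of_supp_subset
    rcases (v i).2 with h1 | h1
    · rw [h1]
      exact Set.subset_union_right
    · exact (Set.subset_iUnion (fun x : A => supp (x : B p I)) ⟨_, h1⟩).trans
        Set.subset_union_left
  · intro x
    show bmap g (x : B p I) = f x
    rw [← hval x]
    refine bmap_congr (S := S) (ret_of_supp_subset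
      (Set.subset_iUnion (fun x : A => supp (x : B p I)) x)) hg2

theorem diagram_B (hp : 1 < p) [Infinite I] [Infinite J] :
    diagram LG (B p I) ⊆ diagram LG (B p J) := by
  rintro ⟨n, t⟩ ⟨v, hv⟩
  obtain ⟨k, e, l, he, hvl⟩ := common_words v
  refine ⟨fun j => bmap (fun i : Fin k => Infinite.natEmbedding J i)
    ((FreeGroup.mk (l j) : FreeGroup (Fin k)) : B p (Fin k)), ?_⟩
  have hv' : tp LG v = t := hv
  rw [← hv']
  have e1 : v = fun j => bmap e ((FreeGroup.mk (l j) : FreeGroup (Fin k)) : B p (Fin k)) :=
    funext hvl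
  conv_rhs => rw [e1]
  apply bf' hp _ _ _ he
  intro i j hij
  exact Fin.ext ((Infinite.natEmbedding J).injective hij)

theorem good_B (hp : 1 < p) : Good LG (diagram LG (B p ℕ)) := by
  intro κ
  let I : Type := (max κ ℵ₀).out
  have hI : #I = max κ ℵ₀ := Cardinal.mk_out _
  have hinf : Infinite I := by
    rw [Cardinal.infinite_iff, hI]
    exact le_max_right _ _
  refine ⟨#I, ?_, B p I, inferInstance, homogeneous_B hp, ?_, ?_⟩
  · rw [hI]
    exact le_max_left _ _
  · exact Set.Subset.antisymm (diagram_B hp) (diagram_B hp)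
  · rw [mk_B hp]

end Pool.Agent.Q206.BG
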